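import Mathlib
import Pool.Agent.W39.TG.E

/-!
# The boundary of every optimal domain contains a line segment

MP_3a2f0c_an, Q1. An optimal domain is a plane convex domain of area one which maximises the
supremum of the gradient of the torsion function among the plane convex domains of area one.
We prove that the boundary of every optimal domain contains a line segment whose length is at least
`1 / 25`.

The proof builds on the starting files `Pool.Agent.H781R2` (the exact value of the maximal gradient,
`MP_bde01c_an.ExactValue`): for a boundary point whose gradient is nearly maximal, the height over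
the tangent line of the boundary curve, in a half plane parameter, is a nearly extremal function
`Y ≥ 0` of a sharp inequality `(∫ Y²)² ≤ 4 S² A (∫ Y)²` between the mass, the square mass and the
energy. Truncating `Y` at the small level `τ` does not increase the energy, hence the length of the
interval `{Y > τ}` is bounded by a multiple of the mass which does not depend on `τ`, the harmonic
measure of the rest of the boundary, seen from a suitable inner point at a height bounded from below,
is bounded from below, and the rest of the boundary, of a height of at most `τ`, cannot be contained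
in a small disc around the boundary point. In the limit one gets a segment in the boundary.
-/

set_option autoImplicit false

open MeasureTheory Set Topology
open scoped ENNReal

namespace Pool.Agent.Results.MP_3a2f0c_an.FlatBoundary

/-- A convex domain of the plane `ℂ = ℝ²`: a nonempty bounded convex open set. -/
def IsConvexDomain (Ω : Set ℂ) : Prop :=
  Ω.Nonempty ∧ Bornology.IsBounded Ω ∧ Convex ℝ Ω ∧ IsOpen Ω

/-- `u` is the torsion function of `Ω`: it is continuous on the closure of `Ω`, twice continuously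
differentiable in `Ω`, satisfies `-(1/2) Δ u = 1` in `Ω`, and vanishes on the boundary. -/
def IsTorsion (Ω : Set ℂ) (u : ℂ → ℝ) : Prop :=
  ContinuousOn u (closure Ω) ∧ ContDiffOn ℝ 2 u Ω ∧
    (∀ x ∈ Ω, -(1 / 2) * Laplacian.laplacian u x = 1) ∧ ∀ x ∈ frontier Ω, u x = 0

/-- `G(Ω) = sup_{x ∈ Ω} |∇u(x)|`, where `u` is the torsion function of `Ω`. -/
noncomputable def G (Ω : Set ℂ) : ℝ≥0∞ :=
  ⨆ (u : ℂ → ℝ) (_ : IsTorsion Ω u) (x : ℂ) (_ : x ∈ Ω), ‖fderiv ℝ u x‖ₑ

/-- `Ω` is an optimal domain: a convex domain of area one which maximises `G` among the convex domains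
of area one. -/
def IsOptimal (Ω : Set ℂ) : Prop :=
  IsConvexDomain Ω ∧ volume Ω = 1 ∧
    G Ω = ⨆ (Ω' : Set ℂ) (_ : IsConvexDomain Ω') (_ : volume Ω' = 1), G Ω'

/-- **Q1 of MP_3a2f0c_an.** The boundary of every optimal domain contains a line segment, of a length
of at least `1 / 25`. -/
theorem result (Ω : Set ℂ) (h : IsOptimal Ω) :
    ∃ a b : ℂ, 1 / 25 ≤ dist a b ∧ segment ℝ a b ⊆ frontier Ω := by
  obtain ⟨⟨hne, hb, hconv, hopen⟩, hvol, hG⟩ := h
  refine Pool.Agent.W39.TG.flat_main hopen hconv hb hvol.le fun m hm hm0 ε hε => ?_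
  obtain ⟨Ω', u', x', ho', hc', hb', hv', h1, h2, h3, h4, hx', rfl⟩ := hm
  have hD' : IsConvexDomain Ω' := ⟨⟨x', hx'⟩, hb', hc', ho'⟩
  -- the torsion function of `Ω'` in the normalisation of the problem
  have hT' : IsTorsion Ω' ((2 : ℝ) • u') := by
    have h2' : ContDiffOn ℝ 2 ((2 : ℝ) • u') Ω' := h2.const_smul (2 : ℝ)
    refine ⟨h1.const_smul (2 : ℝ), h2', fun x hx => ?_, fun x hx => ?_⟩
    · rw [InnerProductSpace.laplacian_smul 2 (h2.contDiffAt (ho'.mem_nhds hx)), h3 x hx]
      norm_num
    · rw [Pi.smul_apply, h4 x hx, smul_zero]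
  have hd' : DifferentiableAt ℝ u' x' := (h2.contDiffAt (ho'.mem_nhds hx')).differentiableAt (by norm_num)
  have hn' : ‖fderiv ℝ ((2 : ℝ) • u') x'‖ₑ = ENNReal.ofReal (2 * ‖fderiv ℝ u' x'‖) := by
    rw [fderiv_const_smul hd', ← ofReal_norm, norm_smul]
    norm_num
  have hle : ENNReal.ofReal (2 * ‖fderiv ℝ u' x'‖) ≤ G Ω := by
    rw [hG, ← hn']
    refine le_trans ?_ (le_iSup₂_of_le Ω' hD' (le_iSup_of_le hv' le_rfl))
    exact le_iSup₂_of_le _ hT' (le_iSup₂_of_le x' hx' le_rfl)
  have hlt : ENNReal.ofReal (2 * (‖fderiv ℝ u' x'‖ - ε)) < G Ω := by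
    refine lt_of_lt_of_le ?_ hle
    rw [ENNReal.ofReal_lt_ofReal_iff (by linarith)]
    linarith
  unfold G at hlt
  simp only [lt_iSup_iff] at hlt
  obtain ⟨u, hu, x, hx, hux⟩ := hlt
  obtain ⟨k1, k2, k3, k4⟩ := hu
  have k2' : ContDiffOn ℝ 2 ((1 / 2 : ℝ) • u) Ω := k2.const_smul (1 / 2 : ℝ)
  refine ⟨(1 / 2 : ℝ) • u, x, k1.const_smul _, k2', fun y hy => ?_, fun y hy => ?_, hx, ?_⟩
  · rw [InnerProductSpace.laplacian_smul _ (k2.contDiffAt (hopen.mem_nhds hy)), smul_eq_mul]
    have := k3 y hy
    linarith
  · rw [Pi.smul_apply, k4 y hy, smul_zero]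
  · have hd : DifferentiableAt ℝ u x := (k2.contDiffAt (hopen.mem_nhds hx)).differentiableAt (by norm_num)
    rw [← ofReal_norm] at hux
    have h5 := (ENNReal.ofReal_lt_ofReal_iff' ).1 hux
    rw [fderiv_const_smul hd, norm_smul]
    norm_num
    linarith [h5.1]

end Pool.Agent.Results.MP_3a2f0c_an.FlatBoundary
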